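import Mathlib

/-!
# A graph with a rotor mechanism for which every rotor configuration is transient

The graph has levels `0, 1, 2, ...`, the level `m` has `2 ^ m` vertices, and two vertices are
adjacent if and only if their levels differ by one. The neighbours of a vertex of level `m + 1`
are arranged cyclically so that every vertex of level `m` is followed by four vertices of level
`m + 2`. Give the particle at a vertex of level `m` the weight `4 ^ (- m)`; the rotors outside of
the root store the discrepancies, and the sum of all the possible discrepancies is finite. Every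
departure from the root decreases the total weight by `3 / 4`, so there are boundedly many.
-/

set_option autoImplicit false

open Finset

namespace Pool.Agent.Results.MP_c5a801_co.AllTransient

/-- A rotor mechanism on a graph `G` with finite degrees: a cyclic ordering of the neighbours of
every vertex, given by its successor function. For a neighbour `a` of `v`, `succ v a` is the
neighbour of `v` following `a` in the cyclic ordering at `v`; every neighbour of `v` is reached
from every neighbour of `v` by iterating `succ v`, so `succ v` permutes the (finitely many)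
neighbours of `v` in a single cycle. The values `succ v a` for `a` not adjacent to `v` are
irrelevant. -/
structure RotorMechanism {V : Type} (G : SimpleGraph V) where
  /-- the successor of a neighbour in the cyclic ordering at a vertex -/
  succ : V → V → V
  /-- the successor is a neighbour -/
  adj_succ : ∀ v a, G.Adj v a → G.Adj v (succ v a)
  /-- the neighbours form one cycle -/
  cyclic : ∀ v a b, G.Adj v a → G.Adj v b → ∃ k : ℕ, (succ v)^[k] a = b

/-- The rotor walk from the vertex `x₀` with the initial configuration `r₀`: the value at `t` is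
the pair of the position `x_t` of the particle and the rotor configuration `r_t`. The rotor at
`x_t` is advanced to its successor, and then the particle moves along it. -/
noncomputable def rotorWalk {V : Type} {G : SimpleGraph V} (M : RotorMechanism G) (x₀ : V)
    (r₀ : V → V) : ℕ → V × (V → V)
  | 0 => (x₀, r₀)
  | t + 1 =>
    let x := (rotorWalk M x₀ r₀ t).1
    let r := (rotorWalk M x₀ r₀ t).2
    open Classical in
    (M.succ x (r x), Function.update r x (M.succ x (r x)))

/-! ### General facts -/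

section general

variable {V : Type} {G : SimpleGraph V} (M : RotorMechanism G) (x₀ : V) (r₀ : V → V)

theorem pos_succ (t : ℕ) : (rotorWalk M x₀ r₀ (t + 1)).1 =
    M.succ (rotorWalk M x₀ r₀ t).1 ((rotorWalk M x₀ r₀ t).2 (rotorWalk M x₀ r₀ t).1) := rfl

theorem rot_succ_self (t : ℕ) : (rotorWalk M x₀ r₀ (t + 1)).2 (rotorWalk M x₀ r₀ t).1 =
    (rotorWalk M x₀ r₀ (t + 1)).1 := by
  simp [rotorWalk]

theorem rot_succ_ne (t : ℕ) (v : V) (hv : (rotorWalk M x₀ r₀ t).1 ≠ v) :
    (rotorWalk M x₀ r₀ (t + 1)).2 v = (rotorWalk M x₀ r₀ t).2 v := by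
  simp only [rotorWalk]
  exact @Function.update_of_ne _ _ (fun a b => Classical.propDecidable (a = b)) _ _
    (Ne.symm hv) _ _

theorem rot_adj (h₀ : ∀ v, G.Adj v (r₀ v)) (t : ℕ) : ∀ v, G.Adj v ((rotorWalk M x₀ r₀ t).2 v) := by
  induction t with
  | zero => exact h₀
  | succ t ih =>
    intro v
    by_cases hv : (rotorWalk M x₀ r₀ t).1 = v
    · rw [← hv, rot_succ_self, pos_succ]
      exact M.adj_succ _ _ (ih _)
    · rw [rot_succ_ne M x₀ r₀ t v hv]
      exact ih v

/-- the rotor of a vertex does not move until the next visit -/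
theorem rot_const (v : V) (T d : ℕ) (h : ∀ s, T ≤ s → s < T + d → (rotorWalk M x₀ r₀ s).1 ≠ v) :
    (rotorWalk M x₀ r₀ (T + d)).2 v = (rotorWalk M x₀ r₀ T).2 v := by
  induction d with
  | zero => rfl
  | succ d ih =>
    rw [show T + (d + 1) = (T + d) + 1 by ring, rot_succ_ne M x₀ r₀ (T + d) v]
    · exact ih (fun s h1 h2 => h s h1 (by omega))
    · exact h (T + d) (by omega) (by omega)

theorem visit_iterate (v : V) (hv : ∀ T, ∃ t, T ≤ t ∧ (rotorWalk M x₀ r₀ t).1 = v) (k : ℕ) :
    ∀ T, ∃ t, T ≤ t ∧ (rotorWalk M x₀ r₀ t).1 = v ∧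
      (rotorWalk M x₀ r₀ (t + 1)).1 = (M.succ v)^[k + 1] ((rotorWalk M x₀ r₀ T).2 v) := by
  classical
  -- first visit
  have first : ∀ T, ∃ t, T ≤ t ∧ (rotorWalk M x₀ r₀ t).1 = v ∧
      (rotorWalk M x₀ r₀ t).2 v = (rotorWalk M x₀ r₀ T).2 v := by
    intro T
    have hex : ∃ d, (rotorWalk M x₀ r₀ (T + d)).1 = v := by
      obtain ⟨t, ht, ht'⟩ := hv T
      exact ⟨t - T, by rw [Nat.add_sub_cancel' ht]; exact ht'⟩
    refine ⟨T + Nat.find hex, by omega, Nat.find_spec hex, ?_⟩
    apply rot_const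
    intro s h1 h2 hs
    refine Nat.find_min hex (m := s - T) (by omega) ?_
    rw [Nat.add_sub_cancel' h1]
    exact hs
  induction k with
  | zero =>
    intro T
    obtain ⟨t, ht, hx, hr⟩ := first T
    refine ⟨t, ht, hx, ?_⟩
    rw [pos_succ, hx, hr]
    rfl
  | succ k ih =>
    intro T
    obtain ⟨t, ht, hx, hr⟩ := ih T
    obtain ⟨t', ht', hx', hr'⟩ := first (t + 1)
    refine ⟨t', by omega, hx', ?_⟩
    rw [pos_succ, hx', hr', Function.iterate_succ_apply']
    congr 1
    rw [← hr]
    have := rot_succ_self M x₀ r₀ t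
    rw [hx] at this
    exact this

/-- a neighbour of a vertex visited infinitely often is visited infinitely often -/
theorem visit_adj (h₀ : ∀ v, G.Adj v (r₀ v)) (v z : V) (hz : G.Adj v z)
    (hv : ∀ T, ∃ t, T ≤ t ∧ (rotorWalk M x₀ r₀ t).1 = v) :
    ∀ T, ∃ t, T ≤ t ∧ (rotorWalk M x₀ r₀ t).1 = z := by
  intro T
  have ha := rot_adj M x₀ r₀ h₀ T v
  obtain ⟨k, hk⟩ := M.cyclic v _ z (M.adj_succ v _ ha) hz
  obtain ⟨t, ht, -, hx⟩ := visit_iterate M x₀ r₀ v hv k T
  refine ⟨t + 1, by omega, ?_⟩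
  rw [hx, Function.iterate_succ_apply]
  exact hk

theorem infinite_visits_iff (y : V) : {t | (rotorWalk M x₀ r₀ t).1 = y}.Infinite ↔
    ∀ T, ∃ t, T ≤ t ∧ (rotorWalk M x₀ r₀ t).1 = y := by
  constructor
  · intro h T
    obtain ⟨t, ht, hT⟩ := h.exists_gt T
    exact ⟨t, hT.le, ht⟩
  · intro h
    rw [← Set.not_finite]  
    intro hfin
    obtain ⟨B, hB⟩ := hfin.bddAbove
    obtain ⟨t, ht, ht'⟩ := h (B + 1)
    have := hB ht'
    omega

theorem visit_reachable (h₀ : ∀ v, G.Adj v (r₀ v)) (v z : V) (hz : G.Reachable v z)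
    (hv : ∀ T, ∃ t, T ≤ t ∧ (rotorWalk M x₀ r₀ t).1 = v) :
    ∀ T, ∃ t, T ≤ t ∧ (rotorWalk M x₀ r₀ t).1 = z := by
  obtain ⟨p⟩ := hz
  induction p with
  | nil => exact hv
  | cons hadj _ ih => exact ih (visit_adj M x₀ r₀ h₀ _ _ hadj hv)

end general

/-! ### The graph -/

/-- the vertices: pairs of a level `lv` and an index `ix` smaller than `2 ^ lv` -/
structure Vtx where
  /-- the level of a vertex -/
  lv : ℕ
  /-- the index of a vertex -/
  ix : ℕ
  /-- the level `lv` has `2 ^ lv` vertices -/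
  lt : ix < 2 ^ lv

noncomputable instance : DecidableEq Vtx := Classical.decEq _

theorem Vtx.ext {v w : Vtx} (h1 : v.lv = w.lv) (h2 : v.ix = w.ix) : v = w := by
  obtain ⟨a, b, _⟩ := v
  obtain ⟨c, d, _⟩ := w
  simp only at h1 h2
  subst h1
  subst h2
  rfl

/-- two vertices are adjacent if their levels differ by one -/
def levelGraph : SimpleGraph Vtx where
  Adj v w := v.lv + 1 = w.lv ∨ w.lv + 1 = v.lv
  symm := ⟨fun _ _ h => h.symm⟩
  loopless := ⟨fun v h => by rcases h with h | h <;> omega⟩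

theorem adj_iff (v w : Vtx) : levelGraph.Adj v w ↔ (v.lv + 1 = w.lv ∨ w.lv + 1 = v.lv) := Iff.rfl

/-- the `j`-th neighbour of a vertex of level `m + 1` -/
def nbr (m j : ℕ) : Vtx :=
  if h : j % (5 * 2 ^ m) % 5 = 0 then
    ⟨m, j % (5 * 2 ^ m) / 5, by
      have : 0 < 2 ^ m := by positivity
      have h1 := Nat.mod_lt j (show 5 * 2 ^ m > 0 by positivity)
      show j % (5 * 2 ^ m) / 5 < 2 ^ m
      omega⟩
  else
    ⟨m + 2, 4 * (j % (5 * 2 ^ m) / 5) + j % (5 * 2 ^ m) % 5 - 1, by
      have : 0 < 2 ^ m := by positivity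
      have h1 := Nat.mod_lt j (show 5 * 2 ^ m > 0 by positivity)
      show 4 * (j % (5 * 2 ^ m) / 5) + j % (5 * 2 ^ m) % 5 - 1 < 2 ^ (m + 2)
      rw [pow_add]
      omega⟩

/-- the number of a neighbour -/
def idx (m : ℕ) (y : Vtx) : ℕ :=
  if y.lv = m then 5 * y.ix else 5 * (y.ix / 4) + y.ix % 4 + 1

theorem nbr_lv_of_mod (m j : ℕ) (h : j % (5 * 2 ^ m) % 5 = 0) : (nbr m j).lv = m := by
  unfold nbr; rw [dif_pos h]

theorem nbr_lv_of_not (m j : ℕ) (h : ¬ j % (5 * 2 ^ m) % 5 = 0) : (nbr m j).lv = m + 2 := by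
  unfold nbr; rw [dif_neg h]

theorem idx_nbr (m j : ℕ) : idx m (nbr m j) = j % (5 * 2 ^ m) := by
  by_cases h : j % (5 * 2 ^ m) % 5 = 0
  · unfold idx
    rw [if_pos (nbr_lv_of_mod m j h)]
    have : (nbr m j).ix = j % (5 * 2 ^ m) / 5 := by unfold nbr; rw [dif_pos h]
    rw [this]
    omega
  · unfold idx
    have h2 := nbr_lv_of_not m j h
    rw [if_neg (by omega)]
    have : (nbr m j).ix = 4 * (j % (5 * 2 ^ m) / 5) + j % (5 * 2 ^ m) % 5 - 1 := by
      unfold nbr; rw [dif_neg h]
    rw [this]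
    omega

theorem nbr_idx (m : ℕ) (y : Vtx) (hy : y.lv = m ∨ y.lv = m + 2) : nbr m (idx m y) = y := by
  have hlt : y.ix < 2 ^ y.lv := y.lt
  have hpos : 0 < 2 ^ m := by positivity
  rcases hy with hy | hy
  · have hi : idx m y = 5 * y.ix := by unfold idx; rw [if_pos hy]
    rw [hy] at hlt
    have hm : idx m y % (5 * 2 ^ m) = 5 * y.ix := by rw [hi]; exact Nat.mod_eq_of_lt (by omega)
    have h0 : idx m y % (5 * 2 ^ m) % 5 = 0 := by rw [hm]; omega
    apply Vtx.ext
    · rw [nbr_lv_of_mod m _ h0, hy]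
    · have : (nbr m (idx m y)).ix = idx m y % (5 * 2 ^ m) / 5 := by unfold nbr; rw [dif_pos h0]
      rw [this, hm]; omega
  · have hi : idx m y = 5 * (y.ix / 4) + y.ix % 4 + 1 := by unfold idx; rw [if_neg (by omega)]
    rw [hy, pow_add] at hlt
    have hm : idx m y % (5 * 2 ^ m) = 5 * (y.ix / 4) + y.ix % 4 + 1 := by
      rw [hi]; exact Nat.mod_eq_of_lt (by omega)
    have h0 : ¬ idx m y % (5 * 2 ^ m) % 5 = 0 := by rw [hm]; omega
    apply Vtx.ext
    · rw [nbr_lv_of_not m _ h0, hy]
    · have : (nbr m (idx m y)).ix =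
          4 * (idx m y % (5 * 2 ^ m) / 5) + idx m y % (5 * 2 ^ m) % 5 - 1 := by
        unfold nbr; rw [dif_neg h0]
      rw [this, hm]; omega

theorem nbr_congr (m : ℕ) {j j' : ℕ} (h : j % (5 * 2 ^ m) = j' % (5 * 2 ^ m)) :
    nbr m j = nbr m j' := by
  unfold nbr
  simp only [h]

/-- the successor function of the mechanism -/
def nextV (v y : Vtx) : Vtx :=
  if v.lv = 0 then ⟨1, 1 - y.ix, by omega⟩
  else nbr (v.lv - 1) (idx (v.lv - 1) y + 1)

theorem nextV_iterate (v y : Vtx) (hv : v.lv ≠ 0) (hy : levelGraph.Adj v y) (k : ℕ) :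
    (nextV v)^[k] y = nbr (v.lv - 1) (idx (v.lv - 1) y + k) := by
  induction k with
  | zero =>
    rw [Function.iterate_zero, id, add_zero, nbr_idx]
    rcases (adj_iff v y).mp hy with h | h
    · right; omega
    · left; omega
  | succ k ih =>
    rw [Function.iterate_succ_apply', ih]
    unfold nextV
    rw [if_neg hv]
    apply nbr_congr
    rw [idx_nbr, Nat.mod_add_mod]
    congr 1

/-- the mechanism -/
def mech : RotorMechanism levelGraph where
  succ := nextV
  adj_succ := by
    intro v a h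
    by_cases hv : v.lv = 0
    · have : (nextV v a).lv = 1 := by unfold nextV; rw [if_pos hv]
      rw [adj_iff]; left; omega
    · have e : nextV v a = nbr (v.lv - 1) (idx (v.lv - 1) a + 1) := by unfold nextV; rw [if_neg hv]
      rw [adj_iff, e]
      by_cases h0 : (idx (v.lv - 1) a + 1) % (5 * 2 ^ (v.lv - 1)) % 5 = 0
      · rw [nbr_lv_of_mod _ _ h0]; right; omega
      · rw [nbr_lv_of_not _ _ h0]; left; omega
  cyclic := by
    intro v a b ha hb
    by_cases hv : v.lv = 0
    · have ha1 : a.lv = 1 := by rcases (adj_iff v a).mp ha with h | h <;> omega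
      have hb1 : b.lv = 1 := by rcases (adj_iff v b).mp hb with h | h <;> omega
      have ha2 : a.ix < 2 ^ a.lv := a.lt
      have hb2 : b.ix < 2 ^ b.lv := b.lt
      rw [ha1] at ha2
      rw [hb1] at hb2
      by_cases hab : a.ix = b.ix
      · exact ⟨0, Vtx.ext (by rw [Function.iterate_zero, id, ha1, hb1]) hab⟩
      · refine ⟨1, ?_⟩
        rw [Function.iterate_one]
        have h1 : (nextV v a).lv = 1 := by unfold nextV; rw [if_pos hv]
        have h2 : (nextV v a).ix = 1 - a.ix := by unfold nextV; rw [if_pos hv]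
        apply Vtx.ext
        · rw [h1, hb1]
        · rw [h2]; omega
    · set M := 5 * 2 ^ (v.lv - 1) with hM
      refine ⟨idx (v.lv - 1) b + (M - idx (v.lv - 1) a % M), ?_⟩
      rw [nextV_iterate v a hv ha]
      have hb' : b.lv = v.lv - 1 ∨ b.lv = v.lv - 1 + 2 := by
        rcases (adj_iff v b).mp hb with h | h
        · right; omega
        · left; omega
      rw [← nbr_idx (v.lv - 1) b hb']
      apply nbr_congr
      rw [← hM, nbr_idx (v.lv - 1) b hb']
      have hpos : 0 < M := by positivity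
      have hlt := Nat.mod_lt (idx (v.lv - 1) a) hpos
      have hdm := Nat.div_add_mod (idx (v.lv - 1) a) M
      have : idx (v.lv - 1) a + (idx (v.lv - 1) b + (M - idx (v.lv - 1) a % M)) =
          idx (v.lv - 1) b + M * (idx (v.lv - 1) a / M + 1) := by
        rw [mul_add, mul_one]
        omega
      rw [this, Nat.add_mul_mod_self_left]

theorem levelGraph_connected : levelGraph.Connected := by
  have root : ∀ m : ℕ, ∀ v : Vtx, v.lv = m → levelGraph.Reachable ⟨0, 0, by norm_num⟩ v := by
    intro m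
    induction m with
    | zero =>
      intro v hv
      have : v.ix < 2 ^ v.lv := v.lt
      rw [hv] at this
      have hv0 : v = ⟨0, 0, by norm_num⟩ := Vtx.ext hv (by
        change v.ix = 0
        omega)
      rw [hv0]
    | succ m ih =>
      intro v hv
      have h := ih ⟨m, 0, by positivity⟩ rfl
      refine h.trans (SimpleGraph.Adj.reachable ?_)
      rw [adj_iff]
      left
      exact hv.symm
  have : Nonempty Vtx := ⟨⟨0, 0, by norm_num⟩⟩
  exact SimpleGraph.Connected.mk (fun u v => (root _ u rfl).symm.trans (root _ v rfl))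

theorem infinite_vtx : Infinite Vtx := by
  refine Infinite.of_injective (fun m : ℕ => (⟨m, 0, by positivity⟩ : Vtx)) ?_
  intro a b h
  exact congrArg Vtx.lv h

theorem neighborSet_finite (v : Vtx) : (levelGraph.neighborSet v).Finite := by
  have hfin : (Set.Iic (v.lv + 1) ×ˢ Set.Iio (2 ^ (v.lv + 1)) : Set (ℕ × ℕ)).Finite :=
    (Set.finite_Iic _).prod (Set.finite_Iio _)
  have hinj : Function.Injective (fun w : Vtx => (w.lv, w.ix)) := by
    intro a b hab
    exact Vtx.ext (congrArg Prod.fst hab) (congrArg Prod.snd hab)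
  refine (hfin.preimage (f := fun w : Vtx => (w.lv, w.ix)) hinj.injOn).subset ?_
  intro w hw
  have hw' : v.lv + 1 = w.lv ∨ w.lv + 1 = v.lv := hw
  have h1 : w.lv ≤ v.lv + 1 := by omega
  have h2 : w.ix < 2 ^ w.lv := w.lt
  exact ⟨h1, lt_of_lt_of_le h2 (Nat.pow_le_pow_right (by norm_num) h1)⟩

/-! ### The potential -/

/-- the weight of the particle -/
noncomputable def hgt (v : Vtx) : ℝ := (1 / 4) ^ v.lv

/-- the weight of the rotor at `v` directed to `y` -/
noncomputable def wt (v y : Vtx) : ℝ :=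
  if v.lv = 0 then 0 else 3 / 4 * hgt v * ((idx (v.lv - 1) y % 5 : ℕ) : ℝ)

theorem hgt_pos (v : Vtx) : 0 < hgt v := by unfold hgt; positivity

theorem wt_nonneg (v y : Vtx) : 0 ≤ wt v y := by
  unfold wt
  split_ifs
  · exact le_rfl
  · have := hgt_pos v
    positivity

theorem wt_le (v y : Vtx) : wt v y ≤ 3 * hgt v := by
  unfold wt
  have h := hgt_pos v
  split_ifs
  · positivity
  · have h1 : idx (v.lv - 1) y % 5 ≤ 4 := by omega
    have h2 : ((idx (v.lv - 1) y % 5 : ℕ) : ℝ) ≤ 4 := by exact_mod_cast h1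
    nlinarith

theorem step_eq (v y : Vtx) (hv : v.lv ≠ 0) :
    hgt (nextV v y) + wt v (nextV v y) = hgt v + wt v y := by
  obtain ⟨m, hm⟩ : ∃ m, v.lv = m + 1 := ⟨v.lv - 1, by omega⟩
  have e : nextV v y = nbr m (idx m y + 1) := by
    unfold nextV; rw [if_neg hv, hm, Nat.add_sub_cancel]
  have hmod : (idx m y + 1) % (5 * 2 ^ m) % 5 = (idx m y + 1) % 5 :=
    Nat.mod_mul_right_mod _ _ _
  have w1 : wt v (nextV v y) = 3 / 4 * hgt v * (((idx m y + 1) % 5 : ℕ) : ℝ) := by
    unfold wt
    rw [if_neg hv, e, hm, Nat.add_sub_cancel, idx_nbr, hmod]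
  have w2 : wt v y = 3 / 4 * hgt v * ((idx m y % 5 : ℕ) : ℝ) := by
    unfold wt
    rw [if_neg hv, hm, Nat.add_sub_cancel]
  rw [w1, w2]
  have hh : hgt v = 1 / 4 * (1 / 4) ^ m := by
    unfold hgt; rw [hm, pow_succ]; ring
  by_cases h0 : (idx m y + 1) % 5 = 0
  · have h1 : hgt (nextV v y) = (1 / 4) ^ m := by
      unfold hgt; rw [e, nbr_lv_of_mod _ _ (by rw [hmod]; exact h0)]
    have h2 : idx m y % 5 = 4 := by omega
    rw [h0, h2, h1, hh]
    push_cast
    ring
  · have h1 : hgt (nextV v y) = (1 / 4) ^ (m + 2) := by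
      unfold hgt; rw [e, nbr_lv_of_not _ _ (by rw [hmod]; exact h0)]
    have h2 : (idx m y + 1) % 5 = idx m y % 5 + 1 := by omega
    rw [h2, h1, hh, pow_add]
    push_cast
    ring

theorem step_root (v y : Vtx) (hv : v.lv = 0) :
    hgt (nextV v y) + wt v (nextV v y) + 3 / 4 = hgt v + wt v y := by
  have h1 : (nextV v y).lv = 1 := by unfold nextV; rw [if_pos hv]
  unfold wt hgt
  rw [if_pos hv, if_pos hv, h1, hv]
  norm_num

/-- total weight of finitely many rotors is bounded -/
theorem sum_hgt_le (F : Finset Vtx) : ∑ v ∈ F, hgt v ≤ 2 := by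
  classical
  obtain ⟨L, hL⟩ : ∃ L, ∀ v ∈ F, v.lv < L := by
    refine ⟨F.sup Vtx.lv + 1, fun v hv => ?_⟩
    have := Finset.le_sup (f := Vtx.lv) hv
    omega
  have e : ∑ m ∈ range L, ∑ v ∈ F with v.lv = m, hgt v = ∑ v ∈ F, hgt v :=
    Finset.sum_fiberwise_of_maps_to (fun v hv => mem_range.mpr (hL v hv)) _
  rw [← e]
  have h1 : ∀ m ∈ range L, ∑ v ∈ F with v.lv = m, hgt v ≤ (1 / 2) ^ m := by
    intro m _
    have hc : (F.filter (fun v => v.lv = m)).card ≤ 2 ^ m := by
      have : (F.filter (fun v => v.lv = m)).card ≤ (range (2 ^ m)).card := by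
        apply Finset.card_le_card_of_injOn Vtx.ix
        · intro v hv
          have hv' := (Finset.mem_filter.mp hv).2
          have h2 : v.ix < 2 ^ v.lv := v.lt
          rw [hv'] at h2
          exact Finset.mem_coe.mpr (mem_range.mpr h2)
        · intro v hv w hw hvw
          have hv' := (Finset.mem_filter.mp hv).2
          have hw' := (Finset.mem_filter.mp hw).2
          exact Vtx.ext (by rw [hv', hw']) hvw
      rwa [card_range] at this
    have h3 : ∑ v ∈ F with v.lv = m, hgt v = ((F.filter (fun v => v.lv = m)).card : ℝ) * (1 / 4) ^ m := by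
      rw [Finset.sum_congr rfl (g := fun _ => ((1 : ℝ) / 4) ^ m), Finset.sum_const, nsmul_eq_mul]
      intro v hv
      unfold hgt
      rw [(Finset.mem_filter.mp hv).2]
    rw [h3]
    have hc' : ((F.filter (fun v => v.lv = m)).card : ℝ) ≤ 2 ^ m := by exact_mod_cast hc
    calc ((F.filter (fun v => v.lv = m)).card : ℝ) * (1 / 4) ^ m ≤ 2 ^ m * (1 / 4) ^ m := by
          apply mul_le_mul_of_nonneg_right hc'; positivity
      _ = (1 / 2) ^ m := by rw [← mul_pow]; norm_num
  refine (Finset.sum_le_sum h1).trans ?_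
  have h2 : ∀ L : ℕ, ∑ m ∈ range L, ((1 : ℝ) / 2) ^ m = 2 - 2 * (1 / 2) ^ L := by
    intro L
    induction L with
    | zero => simp
    | succ L ih => rw [Finset.sum_range_succ, ih, pow_succ]; ring
  rw [h2]
  have : (0 : ℝ) < (1 / 2) ^ L := by positivity
  linarith

/-- conservation of the potential -/
theorem potential (x₀ : Vtx) (r₀ : Vtx → Vtx) (F : Finset Vtx) (t : ℕ)
    (hF : ∀ s < t, (rotorWalk mech x₀ r₀ s).1 ∈ F) :
    hgt (rotorWalk mech x₀ r₀ t).1 + ∑ v ∈ F, wt v ((rotorWalk mech x₀ r₀ t).2 v) +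
      3 / 4 * (((range t).filter (fun s => (rotorWalk mech x₀ r₀ s).1.lv = 0)).card : ℝ) =
    hgt x₀ + ∑ v ∈ F, wt v (r₀ v) := by
  induction t with
  | zero => simp [rotorWalk]
  | succ t ih =>
    have ih' := ih (fun s hs => hF s (by omega))
    rw [← ih']
    set x := (rotorWalk mech x₀ r₀ t).1 with hx
    have hxF : x ∈ F := hF t (by omega)
    have hpos : (rotorWalk mech x₀ r₀ (t + 1)).1 = nextV x ((rotorWalk mech x₀ r₀ t).2 x) := rfl
    have hself : (rotorWalk mech x₀ r₀ (t + 1)).2 x = nextV x ((rotorWalk mech x₀ r₀ t).2 x) := by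
      rw [hx, rot_succ_self, ← hx]; exact hpos
    rw [← Finset.add_sum_erase F _ hxF, ← Finset.add_sum_erase F (fun v => wt v
      ((rotorWalk mech x₀ r₀ t).2 v)) hxF, hself, hpos]
    have hrest : ∑ v ∈ F.erase x, wt v ((rotorWalk mech x₀ r₀ (t + 1)).2 v) =
        ∑ v ∈ F.erase x, wt v ((rotorWalk mech x₀ r₀ t).2 v) := by
      apply Finset.sum_congr rfl
      intro v hv
      rw [rot_succ_ne]
      exact fun h => (Finset.mem_erase.mp hv).1 (by rw [hx, h])
    rw [hrest, Finset.range_add_one, Finset.filter_insert]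
    by_cases h0 : x.lv = 0
    · rw [if_pos h0, Finset.card_insert_of_notMem (by simp)]
      have := step_root x ((rotorWalk mech x₀ r₀ t).2 x) h0
      push_cast
      linarith
    · rw [if_neg h0]
      have := step_eq x ((rotorWalk mech x₀ r₀ t).2 x) h0
      linarith

/-- the number of visits of the root is bounded -/
theorem root_visits (x₀ : Vtx) (r₀ : Vtx → Vtx) (t : ℕ) :
    (((range t).filter (fun s => (rotorWalk mech x₀ r₀ s).1.lv = 0)).card : ℝ) ≤ 28 / 3 := by
  classical
  set F := (range t).image (fun s => (rotorWalk mech x₀ r₀ s).1) with hFdef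
  have h := potential x₀ r₀ F t (fun s hs => by
    rw [hFdef]; exact Finset.mem_image_of_mem _ (mem_range.mpr hs))
  have h1 : ∑ v ∈ F, wt v (r₀ v) ≤ 3 * 2 := by
    refine (Finset.sum_le_sum (fun v _ => wt_le v (r₀ v))).trans ?_
    rw [← Finset.mul_sum]
    have := sum_hgt_le F
    linarith
  have h2 : 0 ≤ ∑ v ∈ F, wt v ((rotorWalk mech x₀ r₀ t).2 v) :=
    Finset.sum_nonneg (fun v _ => wt_nonneg v _)
  have h3 := hgt_pos (rotorWalk mech x₀ r₀ t).1
  have h4 : hgt x₀ ≤ 1 := by
    unfold hgt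
    exact pow_le_one₀ (by norm_num) (by norm_num)
  linarith

/-- **There is an infinite, connected, locally finite simple graph with a rotor mechanism such
that every initial rotor configuration is transient**: for every initial configuration `r₀` and
every start vertex `x₀`, every vertex is visited only finitely many times. -/
theorem result : ∃ (V : Type) (G : SimpleGraph V), Infinite V ∧ G.Connected ∧
    (∀ v, (G.neighborSet v).Finite) ∧
    ∃ M : RotorMechanism G, ∀ r₀ : V → V, (∀ v, G.Adj v (r₀ v)) →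
      ∀ x₀ y : V, {t : ℕ | (rotorWalk M x₀ r₀ t).1 = y}.Finite := by
  refine ⟨Vtx, levelGraph, infinite_vtx, levelGraph_connected, neighborSet_finite, mech, ?_⟩
  intro r₀ h₀ x₀ y
  by_contra hinf
  have hy := (infinite_visits_iff mech x₀ r₀ y).mp hinf
  let root : Vtx := ⟨0, 0, by norm_num⟩
  have hroot := visit_reachable mech x₀ r₀ h₀ y root (levelGraph_connected.preconnected y root) hy
  have hroot' := (infinite_visits_iff mech x₀ r₀ root).mpr hroot
  obtain ⟨S, hS, hcard⟩ := hroot'.exists_subset_card_eq 10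
  have hle := root_visits x₀ r₀ (S.sup id + 1)
  have hsub : S ⊆ (range (S.sup id + 1)).filter (fun s => (rotorWalk mech x₀ r₀ s).1.lv = 0) := by
    intro s hs
    rw [Finset.mem_filter, mem_range]
    refine ⟨?_, ?_⟩
    · have := Finset.le_sup (f := id) hs
      exact Nat.lt_succ_of_le this
    · have : (rotorWalk mech x₀ r₀ s).1 = root := hS (Finset.mem_coe.mpr hs)
      rw [this]
  have hc := Finset.card_le_card hsub
  rw [hcard] at hc
  have hc' : (10 : ℝ) ≤ (((range (S.sup id + 1)).filter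
      (fun s => (rotorWalk mech x₀ r₀ s).1.lv = 0)).card : ℝ) := by exact_mod_cast hc
  linarith

end Pool.Agent.Results.MP_c5a801_co.AllTransient
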